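import Pool.Agent.H27.ZF.TC
import Pool.Agent.H27.L1.H34.GHK.All
import Pool.Agent.H27.L1.H90.GA.CBas
import Pool.Agent.H27.L1.H69.GB.Lone

/-!
Row ZW of the board zf: all the zeros in one window, for every form.
-/

set_option autoImplicit false

namespace Pool.Agent.H95.ZF

open MeasureTheory Pool.Agent.H27.L1.H34.GM Pool.Agent.H27.L1.H34.GZ Pool.Agent.H27.L1.H34.GU
  Pool.Agent.H27.L1.H34.GA Pool.Agent.H27.ZF
open Pool.Agent.H27.L1.H69.GB (isl_uniq)

/-- a form of norm one is an orthonormal family -/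
theorem orthn_single {m N : ℕ} [NeZero N] {T : ℕ → Finset (ZM m)} {D : Set (V m)}
    (hS : SysZ m N T D) {F : Mat m → VN m N → ℂ} {lam : ℕ → ℂ} (hF : HecA m N T F lam)
    (hn : nU D F = 1) : Orthn D (fun _ : Unit => F) := by
  have hfin : IsFiniteMeasure ((hm m).restrict D) :=
    Pool.Agent.H27.L1.H90.GA.fin_D Pool.Agent.H27.L1.H34.GZ.a_VLM hS.one_le hS.dom
  obtain ⟨B, hB⟩ := hF.bdd
  have hdet : ∀ z ∈ D, (mt z).det ≠ 0 := by
    intro z hz h0
    have h1 := (hS.dom.shell z hz).1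
    have h2 := hS.one_le
    unfold aN at h1
    rw [h0, abs_zero, Real.zero_rpow (by positivity)] at h1
    norm_num at h1
  have hsm : ∀ x, AEStronglyMeasurable (fun z : V m => F (mt z) x) ((hm m).restrict D) := by
    intro x
    have h1 : Continuous (fun z : V m => mt z) := continuous_id
    have h2 : ContinuousOn (fun z : V m => F (mt z) x) D :=
      (hF.cont x).comp h1.continuousOn fun z hz => hdet z hz
    exact h2.aestronglyMeasurable hS.dom.meas
  have hi : ∀ x, IntegrableOn (fun z => F (mt z) x * (starRingEnd ℂ) (F (mt z) x)) D (hm m) := by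
    intro x
    have h1 : AEStronglyMeasurable (fun z : V m => F (mt z) x * (starRingEnd ℂ) (F (mt z) x))
        ((hm m).restrict D) :=
      (hsm x).mul (Complex.continuous_conj.comp_aestronglyMeasurable (hsm x))
    refine Integrable.of_bound h1 (B * B) ?_
    refine (ae_restrict_iff' hS.dom.meas).2 (Filter.Eventually.of_forall fun z hz => ?_)
    rw [norm_mul, RCLike.norm_conj]
    have h2 := hB _ x (hdet z hz)
    exact mul_le_mul h2 h2 (norm_nonneg _) ((norm_nonneg _).trans h2)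
  refine ⟨fun _ _ x => hi x, fun i j => ?_⟩
  rw [if_pos (Subsingleton.elim i j)]
  have h3 : ∀ x, ∫ z in D, F (mt z) x * (starRingEnd ℂ) (F (mt z) x) ∂(hm m) =
      ((∫ z in D, ‖F (mt z) x‖ ^ 2 ∂(hm m) : ℝ) : ℂ) := by
    intro x
    rw [← integral_complex_ofReal]
    refine integral_congr_ae (Filter.Eventually.of_forall fun z => ?_)
    show F (mt z) x * (starRingEnd ℂ) (F (mt z) x) = _
    rw [Complex.mul_conj, Complex.normSq_eq_norm_sq]
  have h4 : ∑ x, ∫ z in D, F (mt z) x * (starRingEnd ℂ) (F (mt z) x) ∂(hm m) =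
      ((nU D F : ℝ) : ℂ) := by
    unfold nU
    rw [Complex.ofReal_sum]
    exact Finset.sum_congr rfl fun x _ => h3 x
  exact h4.trans (by rw [hn, Complex.ofReal_one])

theorem pf_ZW (hZRO : Pool.Agent.H34.ZN.T_ZRO) : T_ZW := by
  intro m d hm1 hd
  obtain ⟨C1, hC1, hALL⟩ := Pool.Agent.H27.L1.H34.GHK.c_ALL m hm1 1 one_pos
  obtain ⟨C2, hC2, hZ⟩ := hZRO m (m ^ 2 + 1) hm1 d hd
  obtain ⟨M, hM⟩ : ∃ M : ℝ, M = max 1 C1 * 2 ^ (m ^ 2 + 1) := ⟨_, rfl⟩
  have hM1 : 1 ≤ M := by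
    rw [hM]
    have h1 : (1 : ℝ) ≤ max 1 C1 := le_max_left _ _
    have h2 : (1 : ℝ) ≤ 2 ^ (m ^ 2 + 1) := one_le_pow₀ one_le_two
    nlinarith
  have hlM : 0 ≤ Real.log M := Real.log_nonneg hM1
  refine ⟨C2 * (1 + Real.log M + (m ^ 2 + m + 2 : ℕ)), by positivity, ?_⟩
  intro N _ T D hS F lam P hF hn hL hP L hLL t ht Z hZs
  have hN1 : (1 : ℝ) ≤ N := by
    have := hS.two_le
    exact_mod_cast (by omega : 1 ≤ N)
  have hP0 : 0 < P := by linarith
  have hNP : 1 ≤ (N : ℝ) * P := by nlinarith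
  have hNP0 : 0 < (N : ℝ) * P := by linarith
  have hO := orthn_single hS hF.toHecA hn
  obtain ⟨A, hA⟩ : ∃ A : ℝ, A = M * ((N : ℝ) * P) ^ (m ^ 2 + m + 2) := ⟨_, rfl⟩
  have hA1 : 1 ≤ A := by
    rw [hA]
    have h1 : 1 ≤ ((N : ℝ) * P) ^ (m ^ 2 + m + 2) := one_le_pow₀ hNP
    nlinarith
  have hbd : ∀ u : ℝ, ‖L (1 / 2 + u * Complex.I)‖ ≤ A * (1 + |u - t|) ^ (m ^ 2 + 1) := by
    intro u
    obtain ⟨y, hy⟩ : ∃ y : ℝ, y = 1 + |u - t| := ⟨_, rfl⟩
    have hy1 : 1 ≤ y := by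
      rw [hy]
      linarith [abs_nonneg (u - t)]
    have hy0 : 0 < y := by linarith
    have hR1 : 1 ≤ 2 * y := by linarith
    obtain ⟨P', hP'⟩ : ∃ P' : ℝ, P' = 2 * y * P := ⟨_, rfl⟩
    have hPP : P ≤ P' := by
      rw [hP']
      exact le_mul_of_one_le_left hP0.le hR1
    have hu : |u| ≤ P' := by
      have h1 : |u| ≤ |u - t| + |t| := by
        have := abs_add_le (u - t) t
        rwa [sub_add_cancel] at this
      rw [hP']
      have h2 : |u - t| = y - 1 := by
        rw [hy]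
        ring
      nlinarith
    have hLip : Lip D F P' := by
      intro w hw
      have h1 : 0 ≤ sz (w - 1) := norm_nonneg _
      exact (hL w hw).trans (pow_le_pow_left₀ (by positivity)
        (mul_le_mul_of_nonneg_right hPP h1) 2)
    obtain ⟨L', hL', hb⟩ := hALL N T D hS P' (hP.trans hPP) Unit (fun _ => F) (fun _ => lam)
      (fun _ => 1) (fun _ => ⟨hF, hLip⟩) hO (fun _ => zero_le_one) (fun _ => Or.inl le_rfl)
    have e : L' () = L := isl_uniq (hL' ()) hLL
    have h3 := hb (fun _ => {u}) (fun _ => by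
      intro a ha b hb hab
      rw [Finset.mem_singleton] at ha hb
      exact absurd (ha.trans hb.symm) hab) (fun _ a ha => by
      rw [Finset.mem_singleton] at ha
      rw [ha]
      exact hu)
    simp only [Finset.univ_unique, Finset.sum_singleton, one_mul] at h3
    have h4 : ‖L (1 / 2 + u * Complex.I)‖ ^ 4 ≤ A * y ^ (m ^ 2 + 1) := by
      refine le_trans (le_of_eq ?_) (h3.trans ?_)
      · rw [← e]
      · rw [Real.rpow_one, hP', hA, hM]
        have h5 : C1 ≤ max 1 C1 := le_max_right _ _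
        have h6 : (N : ℝ) * N ^ m * P ^ (m ^ 2 + 1) ≤ (N * P) ^ (m ^ 2 + m + 2) := by
          rw [mul_pow]
          have h7 : (N : ℝ) * N ^ m ≤ N ^ (m ^ 2 + m + 2) := by
            rw [← pow_succ']
            exact pow_le_pow_right₀ hN1 (by omega)
          have h8 : P ^ (m ^ 2 + 1) ≤ P ^ (m ^ 2 + m + 2) := pow_le_pow_right₀ hP (by omega)
          exact mul_le_mul h7 h8 (by positivity) (by positivity)
        calc C1 * ((N : ℝ) * (2 * y * P)) * (N : ℝ) ^ m * (2 * y * P) ^ (m ^ 2) =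
            C1 * 2 ^ (m ^ 2 + 1) * ((N : ℝ) * N ^ m * P ^ (m ^ 2 + 1)) * y ^ (m ^ 2 + 1) := by
              rw [mul_pow, mul_pow, pow_succ, pow_succ, pow_succ]
              ring
          _ ≤ max 1 C1 * 2 ^ (m ^ 2 + 1) * (N * P) ^ (m ^ 2 + m + 2) * y ^ (m ^ 2 + 1) := by
              gcongr
    have h9 : 1 ≤ A * y ^ (m ^ 2 + 1) := by
      have := one_le_pow₀ hy1 (n := m ^ 2 + 1)
      nlinarith
    rw [← hy]
    by_contra hc
    rw [not_le] at hc
    have h10 : 1 ≤ ‖L (1 / 2 + u * Complex.I)‖ := h9.trans hc.le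
    have h11 : ‖L (1 / 2 + u * Complex.I)‖ ≤ ‖L (1 / 2 + u * Complex.I)‖ ^ 4 :=
      le_self_pow₀ h10 (by norm_num)
    linarith
  have h12 := hZ N T D hS F lam P hF hn hL hP L hLL t A ht hA1 hbd Z hZs
  refine h12.trans ?_
  rw [mul_assoc]
  refine mul_le_mul_of_nonneg_left ?_ hC2.le
  have h13 : Real.log A = Real.log M + (m ^ 2 + m + 2 : ℕ) * Real.log (N * P) := by
    rw [hA, Real.log_mul (by positivity) (by positivity), Real.log_pow]
  have h14 : 0 ≤ Real.log (N * P) := Real.log_nonneg hNP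
  have h15 : (0 : ℝ) ≤ (m ^ 2 + m + 2 : ℕ) := Nat.cast_nonneg _
  rw [h13]
  nlinarith [mul_nonneg hlM h14]

end Pool.Agent.H95.ZF
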