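import Pool.Agent.H27.ZF.TA

/-!
Row NZR of the board zf: no zeros.
-/

set_option autoImplicit false

namespace Pool.Agent.H95.ZF

open Pool.Agent.H27.ZF Complex

theorem sq_mono {lam : ℕ → ℂ} {Q A A' : ℝ} (h : Sq lam Q A) (hA : A ≤ A') : Sq lam Q A' :=
  fun r hr => (h r hr).trans (mul_le_mul_of_nonneg_right hA (by positivity))

theorem dp_mono {m : ℕ} {lam : ℕ → ℂ} {Q z0 z A A' : ℝ} {s : ℂ} (h : Dp m lam Q z0 z A s)
    (hA : A ≤ A') : Dp m lam Q z0 z A' s :=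
  fun j k r h1 h2 h3 h4 h5 => (h j k r h1 h2 h3 h4 h5).trans
    (mul_le_mul_of_nonneg_right hA (by positivity))

/-- the summability far to the right -/
theorem summ {m : ℕ} {C0 : ℝ} {lam : ℕ → ℂ} (hl : ∀ n : ℕ, 1 ≤ n → ‖lam n‖ ≤ C0 * (n : ℝ) ^ m)
    {s : ℂ} (hs : (m : ℝ) + 4 ≤ s.re) :
    Summable (fun n : ℕ => if 1 ≤ n then ‖lam n‖ * (n : ℝ) ^ (-s.re) else 0) := by
  have h1 : Summable (fun n : ℕ => C0 * (n : ℝ) ^ (-(2 : ℝ))) :=
    (Real.summable_nat_rpow.2 (by norm_num)).mul_left C0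
  refine Summable.of_nonneg_of_le (fun n => ?_) (fun n => ?_) h1
  · split_ifs
    · positivity
    · exact le_rfl
  · have hC0 : 0 ≤ C0 := by
      have := hl 1 le_rfl
      simp only [Nat.cast_one, one_pow, mul_one] at this
      exact (norm_nonneg _).trans this
    split_ifs with hn
    · have hn1 : (1 : ℝ) ≤ n := by exact_mod_cast hn
      have hn0 : (0 : ℝ) < n := by linarith
      calc ‖lam n‖ * (n : ℝ) ^ (-s.re) ≤ (C0 * (n : ℝ) ^ m) * (n : ℝ) ^ (-s.re) :=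
            mul_le_mul_of_nonneg_right (hl n hn) (by positivity)
        _ = C0 * (n : ℝ) ^ ((m : ℝ) + -s.re) := by
            rw [Real.rpow_add hn0, Real.rpow_natCast]
            ring
        _ ≤ C0 * (n : ℝ) ^ (-(2 : ℝ)) := by
            refine mul_le_mul_of_nonneg_left ?_ hC0
            exact Real.rpow_le_rpow_of_exponent_le hn1 (by linarith)
    · positivity

/-- the value of the inverse of a local factor is differentiable -/
theorem qv_diff (m : ℕ) (q : ℕ → ℂ) {p : ℕ} (hp : p.Prime) :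
    Differentiable ℂ (fun s : ℂ => qv m q ((p : ℂ) ^ (-s))) := by
  unfold qv
  have hp0 : (p : ℂ) ≠ 0 := by exact_mod_cast hp.ne_zero
  refine Differentiable.fun_sum fun j _ => ?_
  refine Differentiable.const_mul ?_ _
  refine Differentiable.pow ?_ j
  intro s
  exact (differentiableAt_id.neg).const_cpow (Or.inl hp0)

theorem pf_NZR (hPRD : T_PRD) (hEPR : T_EPR) (hTAI : T_TAI) (hHTC : T_HTC) : T_NZR := by
  intro m d C0 hm hd hd2 hC0
  have hm0 : (0 : ℝ) < m := by exact_mod_cast hm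
  have hm1 : (1 : ℝ) ≤ m := by exact_mod_cast hm
  obtain ⟨c1, hc1, hP⟩ := hPRD m (d / 2) C0 hm (by positivity) (by linarith) hC0
  obtain ⟨CT, hCT, hT⟩ := hTAI m C0 hC0
  obtain ⟨w, hw0, hw1, hH⟩ := hHTC 1 ((m : ℝ) + 5 - 1 / 2 - d) ((m : ℝ) + 5 - 1 / 2 - d / 2)
    one_pos (by linarith) (by linarith)
  obtain ⟨η, hη⟩ : ∃ η : ℝ, η = w / (32 * m) := ⟨_, rfl⟩
  have hη0 : 0 < η := by
    rw [hη]
    positivity
  obtain ⟨k0, Q1, hk0, hQ1, hP'⟩ := hP η hη0
  obtain ⟨c, hc⟩ : ∃ c : ℝ, c = min c1 η := ⟨_, rfl⟩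
  have hc0 : 0 < c := by
    rw [hc]
    exact lt_min hc1 hη0
  have hcc1 : c ≤ c1 := by
    rw [hc]
    exact min_le_left _ _
  have hcη : c ≤ η := by
    rw [hc]
    exact min_le_right _ _
  have hCT0 : 0 < CT := by linarith
  obtain ⟨Q2, hQ2⟩ : ∃ Q2 : ℝ, Q2 = (5 * CT) ^ (8 * (m : ℝ) / w) := ⟨_, rfl⟩
  refine ⟨c, k0, 2 * m + 10, max Q1 Q2, hc0, hk0, by linarith, hQ1.trans (le_max_left _ _), ?_⟩
  intro lam q L Q t hQ hE hl hLd hLs hSq hbd
  have hQQ1 : Q1 ≤ Q := (le_max_left _ _).trans hQ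
  have hQQ2 : Q2 ≤ Q := (le_max_right _ _).trans hQ
  have hQ1' : 1 ≤ Q := hQ1.trans hQQ1
  have hQ0 : 0 < Q := by linarith
  -- the parameter z
  obtain ⟨z, hz⟩ : ∃ z : ℝ, z = Q ^ (1 / (4 * (m : ℝ))) := ⟨_, rfl⟩
  rw [← hz] at hbd
  have hz4 : z ^ (4 * m) = Q := by
    rw [hz, ← Real.rpow_natCast, ← Real.rpow_mul hQ0.le]
    push_cast
    rw [one_div, inv_mul_cancel₀ (by positivity), Real.rpow_one]
  have hz1 : 1 ≤ z := by
    rw [hz]
    exact Real.one_le_rpow hQ1' (by positivity)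
  -- the size of Q against the constants
  have hbig : 5 * CT ≤ Q ^ (w / (8 * m)) := by
    have h1 : (0 : ℝ) ≤ 5 * CT := by positivity
    have h2 : (5 * CT) ^ (8 * (m : ℝ) / w) ≤ Q := by
      rw [← hQ2]
      exact hQQ2
    calc 5 * CT = ((5 * CT) ^ (8 * (m : ℝ) / w)) ^ (w / (8 * m)) := by
          rw [← Real.rpow_mul h1, show 8 * (m : ℝ) / w * (w / (8 * m)) = 1 by field_simp,
            Real.rpow_one]
      _ ≤ Q ^ (w / (8 * m)) := Real.rpow_le_rpow (by positivity) h2 (by positivity)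
  have hzbig : 5 * CT ≤ z := by
    refine hbig.trans ?_
    rw [hz]
    refine Real.rpow_le_rpow_of_exponent_le hQ1' ?_
    rw [div_le_div_iff₀ (by positivity) (by positivity)]
    nlinarith
  have hfl : z / 2 ≤ (⌊z⌋₊ : ℝ) := by
    have h1 := Nat.lt_floor_add_one z
    linarith
  have hfl1 : 1 ≤ ⌊z⌋₊ := Nat.le_floor (by exact_mod_cast hz1)
  have hfl0 : (0 : ℝ) < ⌊z⌋₊ := by
    have : 0 < ⌊z⌋₊ := by omega
    exact_mod_cast this
  obtain ⟨M1, hM1⟩ : ∃ M1 : ℝ, M1 = CT / ⌊z⌋₊ := ⟨_, rfl⟩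
  have hM10 : 0 < M1 := by
    rw [hM1]
    positivity
  have hM1z : M1 ≤ 2 * CT / z := by
    rw [hM1, div_le_div_iff₀ hfl0 (by linarith)]
    nlinarith
  have hM1h : M1 < 1 := by
    refine lt_of_le_of_lt hM1z ?_
    rw [div_lt_one (by linarith)]
    linarith
  -- the entire function
  obtain ⟨S, hS⟩ : ∃ S : Finset ℕ, S = (Finset.range (⌊z⌋₊ + 1)).filter Nat.Prime := ⟨_, rfl⟩
  have hSp : ∀ p ∈ S, p.Prime := by
    intro p hp
    rw [hS, Finset.mem_filter] at hp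
    exact hp.2
  obtain ⟨R, hR⟩ : ∃ R : ℂ → ℂ, ∀ s, R s = (∏ p ∈ S, qv m (q p) ((p : ℂ) ^ (-s))) * L s :=
    ⟨_, fun _ => rfl⟩
  have hRd : Differentiable ℂ R := by
    have h1 : R = fun s => (∏ p ∈ S, qv m (q p) ((p : ℂ) ^ (-s))) * L s := funext hR
    rw [h1]
    refine Differentiable.mul ?_ hLd
    exact Differentiable.fun_finsetProd fun p hp => qv_diff m (q p) (hSp p hp)
  -- far to the right
  have hfar : ∀ s : ℂ, (m : ℝ) + 4 ≤ s.re → ‖R s - 1‖ ≤ M1 := by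
    intro s hs
    have h1 := hEPR m lam q s S hE hSp (summ hl hs)
    have h2 : (∑' n : ℕ, if 1 ≤ n then lam n * (n : ℂ) ^ (-s) else 0) = L s :=
      (hLs s (by linarith)).tsum_eq
    rw [h2, ← hR, hS] at h1
    rw [h1, hM1]
    exact hT lam hE.one hl ⌊z⌋₊ hfl1 s hs
  -- the middle
  have hmid : ∀ s : ℂ, 1 / 2 + d / 2 ≤ s.re → s.re ≤ 2 * m + 10 → |s.im - t| ≤ 2 * m + 10 →
      ‖R s - 1‖ ≤ 2 * Q ^ (2 * η) := by
    intro s h1 h2 h3
    obtain ⟨h4, h5⟩ := hbd s h1 h2 h3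
    have h6 := hP' lam q Q hQQ1 hE hl (sq_mono hSq
      (Real.rpow_le_rpow_of_exponent_le hQ1' (by linarith))) z hz4.le s h1
      (dp_mono h5 (Real.rpow_le_rpow_of_exponent_le hQ1' hcc1))
    rw [← hS] at h6
    have h7 : ‖R s‖ ≤ Q ^ (2 * η) := by
      rw [hR, norm_mul]
      calc ‖∏ p ∈ S, qv m (q p) ((p : ℂ) ^ (-s))‖ * ‖L s‖ ≤ Q ^ η * Q ^ c :=
            mul_le_mul h6 h4 (norm_nonneg _) (by positivity)
        _ = Q ^ (η + c) := (Real.rpow_add hQ0 _ _).symm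
        _ ≤ Q ^ (2 * η) := Real.rpow_le_rpow_of_exponent_le hQ1' (by linarith)
    have h8 : 1 ≤ Q ^ (2 * η) := Real.one_le_rpow hQ1' (by positivity)
    calc ‖R s - 1‖ ≤ ‖R s‖ + ‖(1 : ℂ)‖ := norm_sub_le _ _
      _ ≤ 2 * Q ^ (2 * η) := by
          rw [norm_one]
          linarith
  -- zeros
  have hend : ∀ s : ℂ, ‖R s - 1‖ < 1 → L s ≠ 0 := by
    intro s h1 h2
    have h3 : R s = 0 := by rw [hR, h2, mul_zero]
    rw [h3, zero_sub, norm_neg, norm_one] at h1
    exact lt_irrefl _ h1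
  intro s hs hst
  rcases le_or_gt ((m : ℝ) + 4) s.re with h1 | h1
  · exact hend s ((hfar s h1).trans_lt hM1h)
  · refine hend s ?_
    obtain ⟨c0, hc0'⟩ : ∃ c0 : ℂ, c0 = ((m : ℝ) + 5 : ℝ) + t * Complex.I := ⟨_, rfl⟩
    have hre : c0.re = (m : ℝ) + 5 := by
      rw [hc0']
      simp
    have him : c0.im = t := by
      rw [hc0']
      simp
    have h8 : 1 ≤ Q ^ (2 * η) := Real.one_le_rpow hQ1' (by positivity)
    have h2 := hH (fun s => R s - 1) c0 M1 (2 * Q ^ (2 * η)) (hRd.sub_const 1) hM10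
      (by linarith) (fun u hu => by
        refine hfar u ?_
        have h3 := (Complex.abs_re_le_norm (u - c0)).trans hu
        rw [Complex.sub_re, hre, abs_le] at h3
        linarith [h3.1]) (fun u hu => by
        have h3 := (Complex.abs_re_le_norm (u - c0)).trans hu
        have h4 := (Complex.abs_im_le_norm (u - c0)).trans hu
        rw [Complex.sub_re, hre, abs_le] at h3
        rw [Complex.sub_im, him] at h4
        exact hmid u (by linarith [h3.1]) (by linarith [h3.2]) (by linarith)) s (by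
        have h5 : s - c0 = ((s.re - (m + 5) : ℝ) : ℂ) := by
          apply Complex.ext
          · rw [Complex.sub_re, hre, Complex.ofReal_re]
          · rw [Complex.sub_im, him, Complex.ofReal_im, hst, sub_self]
        rw [h5, Complex.norm_real, Real.norm_eq_abs, abs_le]
        constructor <;> linarith)
    refine lt_of_le_of_lt h2 ?_
    have hz0 : 0 < z := by linarith
    have e1 : M1 ^ w ≤ (2 * CT) * Q ^ (-(w / (4 * m))) := by
      calc M1 ^ w ≤ (2 * CT / z) ^ w := Real.rpow_le_rpow hM10.le hM1z hw0.le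
        _ = (2 * CT) ^ w * (z ^ w)⁻¹ := by
            rw [Real.div_rpow (by positivity) hz0.le, div_eq_mul_inv]
        _ ≤ (2 * CT) * (z ^ w)⁻¹ := by
            refine mul_le_mul_of_nonneg_right ?_ (by positivity)
            calc (2 * CT) ^ w ≤ (2 * CT) ^ (1 : ℝ) :=
                  Real.rpow_le_rpow_of_exponent_le (by linarith) hw1.le
              _ = 2 * CT := Real.rpow_one _
        _ = (2 * CT) * Q ^ (-(w / (4 * m))) := by
            rw [hz, ← Real.rpow_mul hQ0.le, ← Real.rpow_neg hQ0.le]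
            congr 2
            ring
    have e2 : (2 * Q ^ (2 * η)) ^ (1 - w) ≤ 2 * Q ^ (2 * η) := by
      calc (2 * Q ^ (2 * η)) ^ (1 - w) ≤ (2 * Q ^ (2 * η)) ^ (1 : ℝ) :=
            Real.rpow_le_rpow_of_exponent_le (by linarith) (by linarith)
        _ = 2 * Q ^ (2 * η) := Real.rpow_one _
    have e3 : 2 * η = w / (16 * m) := by
      rw [hη]
      field_simp
      ring
    have e4 : Q ^ (-(w / (4 * m))) * Q ^ (2 * η) ≤ Q ^ (-(w / (8 * m))) := by
      rw [← Real.rpow_add hQ0]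
      refine Real.rpow_le_rpow_of_exponent_le hQ1' ?_
      rw [e3]
      have h6 : w / (4 * m) = 2 * (w / (8 * m)) := by
        field_simp
        ring
      have h7 : w / (16 * m) = (w / (8 * m)) / 2 := by
        field_simp
        ring
      have h9 : 0 < w / (8 * (m : ℝ)) := by positivity
      rw [h6, h7]
      linarith
    have e5 : 4 * CT * Q ^ (-(w / (8 * m))) < 1 := by
      rw [Real.rpow_neg hQ0.le, ← div_eq_mul_inv, div_lt_one (by positivity)]
      linarith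
    calc M1 ^ w * (2 * Q ^ (2 * η)) ^ (1 - w) ≤
        ((2 * CT) * Q ^ (-(w / (4 * m)))) * (2 * Q ^ (2 * η)) :=
          mul_le_mul e1 e2 (by positivity) (by positivity)
      _ = 4 * CT * (Q ^ (-(w / (4 * m))) * Q ^ (2 * η)) := by ring
      _ ≤ 4 * CT * Q ^ (-(w / (8 * m))) := mul_le_mul_of_nonneg_left e4 (by positivity)
      _ < 1 := e5

end Pool.Agent.H95.ZF
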